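import Pool.Agent.W_MP_be1d92_co.Defs

/-!
# Retractions onto good subsets: the construction

For every natural number `n` we construct a chain-complete ordered set with no infinite
antichains from which exactly `n` successive retractions onto good subsets are needed to reach
a finite ordered set.
-/

namespace Pool.Agent.W_MP_be1d92_co

/-! ### Funneling in terms of comparability neighbourhoods -/

theorem funneled_iff {P : Type} [PartialOrder P] (p q : P) :
    Funneled p q ↔ ∀ z : P, (z ≤ p ∨ p ≤ z) → (z ≤ q ∨ q ≤ z) := by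
  constructor
  · intro h z hz
    have hc : IsChain (· ≤ ·) ({z, p} : Set P) := by
      intro a ha b hb hab
      simp only [Set.mem_insert_iff, Set.mem_singleton_iff] at ha hb
      rcases ha with rfl | rfl <;> rcases hb with rfl | rfl
      · exact absurd rfl hab
      · exact hz
      · exact hz.symm
      · exact absurd rfl hab
    obtain ⟨M, hM, hsub⟩ := hc.exists_maxChain
    have hp : p ∈ M := hsub (by simp)
    have hz' : z ∈ M := hsub (by simp)
    have hq := h M hM hp
    rcases eq_or_ne z q with rfl | hne
    · exact Or.inl le_rfl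
    · exact hM.1 hz' hq hne
  · intro h C hC hp
    have hch : IsChain (· ≤ ·) (insert q C) := by
      apply hC.1.insert
      intro b hb _
      have h1 : b ≤ p ∨ p ≤ b := by
        rcases eq_or_ne b p with rfl | hne
        · exact Or.inl le_rfl
        · exact hC.1 hb hp hne
      rcases h b h1 with h2 | h2
      · exact Or.inr h2
      · exact Or.inl h2
    have := hC.2 hch (Set.subset_insert q C)
    rw [this]
    exact Set.mem_insert q C

/-! ### The general counting argument -/

theorem gamma_eq_of_unique (good : ∀ (A : Type) [PartialOrder A], Set A → Prop)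
    (P : Type) [PartialOrder P] (n : ℕ) (A : ℕ → Set P) (h0 : A 0 = Set.univ)
    (hanti : ∀ i < n, A (i + 1) ⊆ A i) (hinf : ∀ i < n, (A i).Infinite)
    (hfin : (A n).Finite)
    (huniq : ∀ i < n, ∀ Q : Set (A i), good (A i) Q ↔ Q = {x : A i | (x : P) ∈ A (i + 1)}) :
    gamma good P = n := by
  apply le_antisymm
  · refine iInf₂_le n ⟨A, h0, fun i hi => ⟨hanti i hi, ?_⟩, hfin⟩
    rw [huniq i hi]
  · refine le_iInf₂ fun k hk => ?_
    rw [Nat.cast_le]
    by_contra hlt
    push Not at hlt
    obtain ⟨Q, hQ0, hQ, hQfin⟩ := hk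
    have key : ∀ i ≤ k, Q i = A i := by
      intro i
      induction i with
      | zero => intro _; rw [hQ0, h0]
      | succ i ih =>
        intro hi
        have hi' := ih (by omega)
        obtain ⟨hsub, hg⟩ := hQ i (by omega)
        rw [hi'] at hg hsub
        rw [huniq i (by omega)] at hg
        ext x
        constructor
        · intro hx
          have : (⟨x, hsub hx⟩ : A i) ∈ {x : A i | (x : P) ∈ Q (i + 1)} := hx
          rw [hg] at this
          exact this
        · intro hx
          have : (⟨x, hanti i (by omega) hx⟩ : A i) ∈ {x : A i | (x : P) ∈ A (i + 1)} := hx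
          rw [← hg] at this
          exact this
    rw [key k le_rfl] at hQfin
    exact hinf k hlt hQfin

/-- Abstract criterion for `IsGood` and `IsGoodLM` to single out exactly one subset. -/
theorem good_unique {A : Type} [PartialOrder A] (B : Set A)
    (h1 : ∀ x ∈ B, ∀ y : A, Funneled x y → y = x)
    (h2 : ∀ x : A, x ∉ B → ∃! y : A, y ∈ B ∧ Funneled x y) (Q : Set A) :
    (IsGood A Q ↔ Q = B) ∧ (IsGoodLM A Q ↔ Q = B) := by
  have refl : ∀ x : A, Funneled x x := fun x C _ h => h
  constructor
  · constructor
    · intro hQ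
      have hBQ : B ⊆ Q := by
        intro x hx
        obtain ⟨q, ⟨hq, hxq⟩, _⟩ := hQ x
        rw [h1 x hx q hxq] at hq
        exact hq
      apply Set.Subset.antisymm _ hBQ
      intro q hq
      by_contra hqB
      obtain ⟨y, ⟨hy, hqy⟩, _⟩ := h2 q hqB
      have := (hQ q).unique ⟨hq, refl q⟩ ⟨hBQ hy, hqy⟩
      rw [this] at hqB
      exact hqB hy
    · rintro rfl p
      by_cases hp : p ∈ Q
      · exact ⟨p, ⟨hp, refl p⟩, fun y hy => h1 p hp y hy.2⟩
      · exact h2 p hp
  · constructor
    · rintro ⟨_, hanti, hdom⟩
      have hBQ : B ⊆ Q := by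
        intro x hx
        obtain ⟨q, hq, hxq⟩ := hdom x
        rw [h1 x hx q hxq] at hq
        exact hq
      apply Set.Subset.antisymm _ hBQ
      intro q hq
      by_contra hqB
      obtain ⟨y, ⟨hy, hqy⟩, _⟩ := h2 q hqB
      have := hanti q hq y (hBQ hy) hqy
      rw [this] at hqB
      exact hqB hy
    · rintro rfl
      refine ⟨fun q hq p hp => ?_, fun q hq q' _ h => (h1 q hq q' h).symm, fun p => ?_⟩
      · rw [h1 q hq p hp]; exact refl q
      · by_cases hp : p ∈ Q
        · exact ⟨p, hp, refl p⟩
        · obtain ⟨y, ⟨hy, hpy⟩, _⟩ := h2 p hp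
          exact ⟨y, hy, hpy⟩

/-! ### The ordered sets -/

/-- The underlying set: a grid of `m` chains of type `ω + 1`, with `m` maximal elements
`top t` and `m` minimal elements `bot t`, and four further elements. -/
inductive X (m : ℕ) : Type
  | grid (s : Fin m) (i : ℕ∞) : X m
  | top (t : Fin m) : X m
  | bot (t : Fin m) : X m
  | ta (b : Bool) : X m
  | ba (b : Bool) : X m

namespace X

variable {m : ℕ}

/-- The order relation. -/
def le : X m → X m → Prop
  | grid s i, grid t j => s ≤ t ∧ i ≤ j
  | grid s _, top t => s < t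
  | bot t, grid s _ => t < s
  | bot _, top _ => True
  | bot t, bot t' => t = t'
  | top t, top t' => t = t'
  | ta b, ta b' => b = b'
  | ta _, top _ => True
  | ba b, ba b' => b = b'
  | bot _, ba _ => True
  | _, _ => False

instance : PartialOrder (X m) where
  le := le
  le_refl := by rintro (_ | _ | _ | _ | _) <;> simp [le]
  le_trans := by
    rintro (⟨a, i⟩ | a | a | a | a) (⟨b, j⟩ | b | b | b | b) (⟨c, k⟩ | c | c | c | c) <;>
      simp only [le] <;> intro h1 h2 <;>
      first
        | trivial
        | exact ⟨h1.1.trans h2.1, h1.2.trans h2.2⟩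
        | exact lt_of_le_of_lt h1.1 h2
        | exact lt_of_lt_of_le h1 h2.1
        | (subst h1; exact h2)
        | (subst h2; exact h1)
  le_antisymm := by
    rintro (⟨a, i⟩ | a | a | a | a) (⟨b, j⟩ | b | b | b | b) <;>
      simp only [le] <;> intro h1 h2 <;>
      first
        | (rw [le_antisymm h1.1 h2.1, le_antisymm h1.2 h2.2])
        | (rw [h1])
        | exact h1.elim
        | exact h2.elim

theorem le_def (x y : X m) : x ≤ y ↔ le x y := Iff.rfl

/-- Comparability. -/
def comp (x y : X m) : Prop := x ≤ y ∨ y ≤ x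

theorem comp_self (x : X m) : comp x x := Or.inl le_rfl

@[simp] theorem comp_grid_grid (s t : Fin m) (i j : ℕ∞) :
    comp (grid s i) (grid t j) ↔ (s ≤ t ∧ i ≤ j) ∨ (t ≤ s ∧ j ≤ i) := Iff.rfl
@[simp] theorem comp_grid_top (s t : Fin m) (i : ℕ∞) : comp (grid s i) (top t) ↔ s < t := by
  simp [comp, le_def, le]
@[simp] theorem comp_grid_bot (s t : Fin m) (i : ℕ∞) : comp (grid s i) (bot t) ↔ t < s := by
  simp [comp, le_def, le]
@[simp] theorem comp_grid_ta (s : Fin m) (i : ℕ∞) (b : Bool) :
    comp (grid s i) (ta b) ↔ False := by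
  simp [comp, le_def, le]
@[simp] theorem comp_grid_ba (s : Fin m) (i : ℕ∞) (b : Bool) :
    comp (grid s i) (ba b) ↔ False := by
  simp [comp, le_def, le]
@[simp] theorem comp_top_grid (s t : Fin m) (i : ℕ∞) : comp (top t) (grid s i) ↔ s < t := by
  simp [comp, le_def, le]
@[simp] theorem comp_top_top (s t : Fin m) : comp (top s) (top t) ↔ s = t := by
  simp [comp, le_def, le, eq_comm]
@[simp] theorem comp_top_bot (s t : Fin m) : comp (top s) (bot t) ↔ True := by
  simp [comp, le_def, le]
@[simp] theorem comp_top_ta (s : Fin m) (b : Bool) : comp (top s) (ta b) ↔ True := by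
  simp [comp, le_def, le]
@[simp] theorem comp_top_ba (s : Fin m) (b : Bool) : comp (top s) (ba b) ↔ False := by
  simp [comp, le_def, le]
@[simp] theorem comp_bot_grid (s t : Fin m) (i : ℕ∞) : comp (bot t) (grid s i) ↔ t < s := by
  simp [comp, le_def, le]
@[simp] theorem comp_bot_top (s t : Fin m) : comp (bot s) (top t) ↔ True := by
  simp [comp, le_def, le]
@[simp] theorem comp_bot_bot (s t : Fin m) : comp (bot s) (bot t) ↔ s = t := by
  simp [comp, le_def, le, eq_comm]
@[simp] theorem comp_bot_ta (s : Fin m) (b : Bool) : comp (bot s) (ta b) ↔ False := by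
  simp [comp, le_def, le]
@[simp] theorem comp_bot_ba (s : Fin m) (b : Bool) : comp (bot s) (ba b) ↔ True := by
  simp [comp, le_def, le]
@[simp] theorem comp_ta_grid (s : Fin m) (i : ℕ∞) (b : Bool) :
    comp (ta b) (grid s i) ↔ False := by
  simp [comp, le_def, le]
@[simp] theorem comp_ta_top (s : Fin m) (b : Bool) : comp (ta b) (top s) ↔ True := by
  simp [comp, le_def, le]
@[simp] theorem comp_ta_bot (s : Fin m) (b : Bool) : comp (ta b) (bot s) ↔ False := by
  simp [comp, le_def, le]
@[simp] theorem comp_ta_ta (b c : Bool) : comp (ta b : X m) (ta c) ↔ b = c := by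
  simp [comp, le_def, le, eq_comm]
@[simp] theorem comp_ta_ba (b c : Bool) : comp (ta b : X m) (ba c) ↔ False := by
  simp [comp, le_def, le]
@[simp] theorem comp_ba_grid (s : Fin m) (i : ℕ∞) (b : Bool) :
    comp (ba b) (grid s i) ↔ False := by
  simp [comp, le_def, le]
@[simp] theorem comp_ba_top (s : Fin m) (b : Bool) : comp (ba b) (top s) ↔ False := by
  simp [comp, le_def, le]
@[simp] theorem comp_ba_bot (s : Fin m) (b : Bool) : comp (ba b) (bot s) ↔ True := by
  simp [comp, le_def, le]
@[simp] theorem comp_ba_ta (b c : Bool) : comp (ba b : X m) (ta c) ↔ False := by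
  simp [comp, le_def, le]
@[simp] theorem comp_ba_ba (b c : Bool) : comp (ba b : X m) (ba c) ↔ b = c := by
  simp [comp, le_def, le, eq_comm]

/-- The `r`-th stage: in the `r` lowest chains only the least element is left, in the `r`
highest chains only the greatest element is left. -/
def InStage (r : ℕ) : X m → Prop
  | grid s i => (s.val < r → i = 0) ∧ (m ≤ s.val + r → i = ⊤)
  | _ => True

/-- The `r`-th stage as a set. -/
def stage (m r : ℕ) : Set (X m) := {x | InStage r x}

theorem stage_zero (m : ℕ) : stage m 0 = Set.univ := by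
  ext x
  simp only [stage, Set.mem_ofPred_eq, Set.mem_univ, iff_true]
  rcases x with ⟨s, i⟩ | _ | _ | _ | _
  · exact ⟨fun h => absurd h (by omega), fun h => absurd s.isLt (by omega)⟩
  all_goals trivial

theorem stage_anti (m r : ℕ) : stage m (r + 1) ⊆ stage m r := by
  intro x hx
  rcases x with ⟨s, i⟩ | _ | _ | _ | _
  · exact ⟨fun h => hx.1 (by omega), fun h => hx.2 (by omega)⟩
  all_goals trivial

/-- Elements of the next stage are only dominated by themselves. -/
theorem dom_self {n r : ℕ} (hr : r + 1 ≤ n) (x y : X (2 * n))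
    (hx : InStage (r + 1) x) (hy : InStage r y)
    (h : ∀ z : X (2 * n), InStage r z → comp z x → comp z y) : y = x := by
  rcases x with ⟨s, i⟩ | t | t | b | b
  · -- grid
    have hself := h (grid s i) ⟨fun h => hx.1 (by omega), fun h => hx.2 (by omega)⟩
      (comp_self _)
    rcases y with ⟨u, k⟩ | u | u | b | b
    · -- grid, grid
      have hu1 : u ≤ s := by
        by_cases hs : s.val + 1 < 2 * n
        · have := h (top ⟨s.val + 1, hs⟩) trivial (by simp [Fin.lt_def])
          simp only [comp_top_grid, Fin.lt_def] at this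
          rw [Fin.le_def]; omega
        · have := u.isLt
          rw [Fin.le_def]; omega
      have hu2 : s ≤ u := by
        by_cases hs : 1 ≤ s.val
        · have := h (bot ⟨s.val - 1, by omega⟩) trivial (by simp [Fin.lt_def]; omega)
          simp only [comp_bot_grid, Fin.lt_def] at this
          rw [Fin.le_def]; omega
        · rw [Fin.le_def]; omega
      have hus : u = s := le_antisymm hu1 hu2
      subst hus
      congr 1
      by_contra hne
      obtain ⟨hx1, hx2⟩ := hx
      obtain ⟨hy1, hy2⟩ := hy
      rcases lt_trichotomy k i with hki | hki | hki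
      · -- k < i
        have hr1 : ¬ u.val < r + 1 := fun hlt => by
          rw [hx1 hlt] at hki
          exact absurd hki (by simp)
        have hr2 : ¬ 2 * n ≤ u.val + r := fun hle => by
          have h1 := hy2 hle
          rw [h1] at hki
          exact absurd hki (by simp)
        have hz : InStage r (grid ⟨u.val - 1, by omega⟩ i : X (2 * n)) := by
          refine ⟨fun h => ?_, fun h => ?_⟩
          · simp only at h; omega
          · simp only at h; omega
        have := h _ hz (by
          rw [comp_grid_grid]; left; exact ⟨by rw [Fin.le_def]; simp, le_rfl⟩)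
        rw [comp_grid_grid] at this
        rcases this with ⟨_, h2⟩ | ⟨h2, _⟩
        · exact absurd hki (not_lt.mpr h2)
        · rw [Fin.le_def] at h2; simp only at h2; omega
      · exact hne hki
      · -- i < k
        have hr1 : ¬ u.val < r := fun hlt => by
          rw [hy1 hlt] at hki
          exact absurd hki (by simp)
        have hr2 : ¬ 2 * n ≤ u.val + (r + 1) := fun hle => by
          rw [hx2 hle] at hki
          exact absurd hki (by simp)
        have hz : InStage r (grid ⟨u.val + 1, by omega⟩ i : X (2 * n)) := by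
          refine ⟨fun h => ?_, fun h => ?_⟩
          · simp only at h; omega
          · simp only at h; omega
        have := h _ hz (by
          rw [comp_grid_grid]; right; exact ⟨by rw [Fin.le_def]; simp, le_rfl⟩)
        rw [comp_grid_grid] at this
        rcases this with ⟨h2, _⟩ | ⟨_, h2⟩
        · rw [Fin.le_def] at h2; simp only at h2; omega
        · exact absurd hki (not_lt.mpr h2)
    · -- grid, top
      exfalso
      have hz : InStage r (grid ⟨2 * n - 1, by omega⟩ ⊤ : X (2 * n)) := by
        refine ⟨fun h => ?_, fun h => rfl⟩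
        simp only at h; omega
      have := h _ hz (by
        rw [comp_grid_grid]; right; exact ⟨by rw [Fin.le_def]; simp only; omega, le_top⟩)
      rw [comp_grid_top, Fin.lt_def] at this
      simp only at this
      omega
    · -- grid, bot
      exfalso
      have hz : InStage r (grid ⟨0, by omega⟩ 0 : X (2 * n)) := by
        refine ⟨fun h => rfl, fun h => ?_⟩
        simp only at h; omega
      have := h _ hz (by
        rw [comp_grid_grid]; left; exact ⟨by rw [Fin.le_def]; simp, by simp⟩)
      rw [comp_grid_bot, Fin.lt_def] at this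
      simp only at this
      omega
    · simp at hself
    · simp at hself
  · -- top
    have h1 := h (ta false) trivial (by simp)
    have h2 := h (ta true) trivial (by simp)
    have h3 := h (top t) trivial (by simp)
    rcases y with ⟨u, k⟩ | u | u | b | b
    · simp at h1
    · simp at h3; rw [h3]
    · simp at h1
    · simp at h1 h2; rw [h1] at h2; simp at h2
    · simp at h1
  · -- bot
    have h1 := h (ba false) trivial (by simp)
    have h2 := h (ba true) trivial (by simp)
    have h3 := h (bot t) trivial (by simp)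
    rcases y with ⟨u, k⟩ | u | u | b | b
    · simp at h1
    · simp at h1
    · simp at h3; rw [h3]
    · simp at h1
    · simp at h1 h2; rw [h1] at h2; simp at h2
  · -- ta
    have h1 := h (top ⟨0, by omega⟩) trivial (by simp)
    have h2 := h (top ⟨1, by omega⟩) trivial (by simp)
    have h3 := h (ta b) trivial (by simp)
    rcases y with ⟨u, k⟩ | u | u | c | c
    · simp at h3
    · simp at h1 h2; rw [← h1] at h2; simp at h2
    · simp at h3
    · simp at h3; rw [h3]
    · simp at h3
  · -- ba
    have h1 := h (bot ⟨0, by omega⟩) trivial (by simp)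
    have h2 := h (bot ⟨1, by omega⟩) trivial (by simp)
    have h3 := h (ba b) trivial (by simp)
    rcases y with ⟨u, k⟩ | u | u | c | c
    · simp at h3
    · simp at h3
    · simp at h1 h2; rw [← h1] at h2; simp at h2
    · simp at h3
    · simp at h3; rw [h3]

/-- Elements that are removed are dominated by some element of the next stage. -/
theorem dom_exists {n r : ℕ} (hr : r + 1 ≤ n) (x : X (2 * n))
    (hx : InStage r x) (hx' : ¬ InStage (r + 1) x) :
    ∃ y : X (2 * n), InStage (r + 1) y ∧
      ∀ z : X (2 * n), InStage r z → comp z x → comp z y := by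
  rcases x with ⟨s, i⟩ | t | t | b | b
  · obtain ⟨hx1, hx2⟩ := hx
    by_cases hs : s.val < r + 1
    · -- lowest chain that is still infinite
      refine ⟨grid s 0, ⟨fun _ => rfl, fun h => by omega⟩, ?_⟩
      have hsr : s.val = r := by
        by_contra hne
        exact hx' ⟨fun _ => hx1 (by omega), fun h => by omega⟩
      rintro (⟨u, k⟩ | u | u | c | c) hz hc
      · rw [comp_grid_grid] at hc ⊢
        rcases le_total u s with hus | hus
        · rcases eq_or_lt_of_le hus with rfl | hlt
          · right; exact ⟨le_rfl, by simp⟩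
          · left
            refine ⟨hus, ?_⟩
            rw [hz.1 (by rw [Fin.lt_def] at hlt; omega)]
        · right; exact ⟨hus, by simp⟩
      · simpa using hc
      · simpa using hc
      · simp at hc
      · simp at hc
    · by_cases hs2 : 2 * n ≤ s.val + (r + 1)
      · refine ⟨grid s ⊤, ⟨fun h => absurd h hs, fun _ => rfl⟩, ?_⟩
        have hsr : s.val + (r + 1) = 2 * n := by
          by_contra hne
          exact hx' ⟨fun h => absurd h hs, fun h => hx2 (by omega)⟩
        rintro (⟨u, k⟩ | u | u | c | c) hz hc
        · rw [comp_grid_grid] at hc ⊢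
          rcases le_total u s with hus | hus
          · left; exact ⟨hus, le_top⟩
          · rcases eq_or_lt_of_le hus with rfl | hlt
            · left; exact ⟨le_rfl, le_top⟩
            · right
              refine ⟨hus, ?_⟩
              rw [hz.2 (by rw [Fin.lt_def] at hlt; omega)]
        · simpa using hc
        · simpa using hc
        · simp at hc
        · simp at hc
      · exact absurd ⟨fun h => absurd h hs, fun h => absurd h hs2⟩ hx'
  all_goals exact absurd trivial hx'

/-- Two dominating elements of the next stage coincide. -/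
theorem dom_unique {n r : ℕ} (hr : r + 1 ≤ n) (x y y' : X (2 * n))
    (hx : InStage r x) (hx' : ¬ InStage (r + 1) x)
    (hy : InStage (r + 1) y) (hy' : InStage (r + 1) y')
    (h : ∀ z : X (2 * n), InStage r z → comp z x → comp z y)
    (h' : ∀ z : X (2 * n), InStage r z → comp z x → comp z y') : y = y' := by
  rcases x with ⟨s, i⟩ | t | t | b | b
  · have main : ∀ w : X (2 * n), InStage (r + 1) w →
        (∀ z : X (2 * n), InStage r z → comp z (grid s i) → comp z w) →
        ∃ k, w = grid s k := by
      intro w hw hwd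
      have hself := hwd (grid s i) hx (comp_self _)
      rcases w with ⟨u, k⟩ | u | u | b | b
      · have hu1 : u ≤ s := by
          by_cases hs : s.val + 1 < 2 * n
          · have := hwd (top ⟨s.val + 1, hs⟩) trivial (by simp [Fin.lt_def])
            simp only [comp_top_grid, Fin.lt_def] at this
            rw [Fin.le_def]; omega
          · have := u.isLt
            rw [Fin.le_def]; omega
        have hu2 : s ≤ u := by
          by_cases hs : 1 ≤ s.val
          · have := hwd (bot ⟨s.val - 1, by omega⟩) trivial (by simp [Fin.lt_def]; omega)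
            simp only [comp_bot_grid, Fin.lt_def] at this
            rw [Fin.le_def]; omega
          · rw [Fin.le_def]; omega
        rw [le_antisymm hu1 hu2]
        exact ⟨k, rfl⟩
      · exfalso
        have hz : InStage r (grid ⟨2 * n - 1, by omega⟩ ⊤ : X (2 * n)) := by
          refine ⟨fun h => ?_, fun h => rfl⟩
          simp only at h; omega
        have := hwd _ hz (by
          rw [comp_grid_grid]; right; exact ⟨by rw [Fin.le_def]; simp only; omega, le_top⟩)
        rw [comp_grid_top, Fin.lt_def] at this
        simp only at this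
        omega
      · exfalso
        have hz : InStage r (grid ⟨0, by omega⟩ 0 : X (2 * n)) := by
          refine ⟨fun h => rfl, fun h => ?_⟩
          simp only at h; omega
        have := hwd _ hz (by
          rw [comp_grid_grid]; left; exact ⟨by rw [Fin.le_def]; simp, by simp⟩)
        rw [comp_grid_bot, Fin.lt_def] at this
        simp only at this
        omega
      · simp at hself
      · simp at hself
    obtain ⟨k, rfl⟩ := main y hy h
    obtain ⟨k', rfl⟩ := main y' hy' h'
    by_cases hs : s.val < r + 1
    · rw [hy.1 hs, hy'.1 hs]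
    · by_cases hs2 : 2 * n ≤ s.val + (r + 1)
      · rw [hy.2 hs2, hy'.2 hs2]
      · exact absurd ⟨fun h => absurd h hs, fun h => absurd h hs2⟩ hx'
  all_goals exact absurd trivial hx'

theorem funneled_stage {m r : ℕ} (x y : stage m r) :
    Funneled x y ↔ ∀ z : X m, InStage r z → comp z x.1 → comp z y.1 := by
  rw [funneled_iff]
  constructor
  · intro h z hz hc
    exact h ⟨z, hz⟩ hc
  · intro h z hc
    exact h z.1 z.2 hc

theorem stage_unique {n r : ℕ} (hr : r < n) (Q : Set (stage (2 * n) r)) :
    (IsGood (stage (2 * n) r) Q ↔ Q = {x : stage (2 * n) r | (x : X (2 * n)) ∈ stage _ (r + 1)}) ∧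
    (IsGoodLM (stage (2 * n) r) Q ↔
      Q = {x : stage (2 * n) r | (x : X (2 * n)) ∈ stage _ (r + 1)}) := by
  apply good_unique
  · rintro x hx y hxy
    rw [funneled_stage] at hxy
    exact Subtype.ext (dom_self hr x.1 y.1 hx y.2 hxy)
  · rintro x hx
    obtain ⟨y, hy, hd⟩ := dom_exists hr x.1 x.2 hx
    refine ⟨⟨y, stage_anti _ _ hy⟩, ⟨hy, ?_⟩, ?_⟩
    · rw [funneled_stage]
      exact hd
    · rintro y' ⟨hy', hd'⟩
      rw [funneled_stage] at hd'
      exact Subtype.ext (dom_unique hr x.1 y'.1 y x.2 hx hy' hy hd' hd)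

theorem stage_infinite {n r : ℕ} (hr : r < n) : (stage (2 * n) r).Infinite := by
  have hinj : Function.Injective
      (fun k : ℕ => (grid ⟨r, by omega⟩ (k : ℕ∞) : X (2 * n))) := by
    intro a b hab
    simp only [grid.injEq, true_and] at hab
    exact_mod_cast hab
  refine Set.infinite_of_injective_forall_mem hinj ?_
  intro k
  refine ⟨fun h => ?_, fun h => ?_⟩
  · simp only at h; omega
  · simp only at h; omega

theorem stage_finite (n : ℕ) : (stage (2 * n) n).Finite := by
  let f : Fin (2 * n) ⊕ Fin (2 * n) ⊕ Fin (2 * n) ⊕ Bool ⊕ Bool → X (2 * n) := fun a =>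
    match a with
    | .inl s => if s.val < n then grid s 0 else grid s ⊤
    | .inr (.inl t) => top t
    | .inr (.inr (.inl t)) => bot t
    | .inr (.inr (.inr (.inl b))) => ta b
    | .inr (.inr (.inr (.inr b))) => ba b
  refine (Set.finite_range f).subset ?_
  rintro (⟨s, i⟩ | t | t | b | b) hx
  · by_cases hs : s.val < n
    · exact ⟨.inl s, by simp only [f, hs, if_true]; rw [hx.1 hs]⟩
    · exact ⟨.inl s, by simp only [f, hs, if_false]; rw [hx.2 (by omega)]⟩
  · exact ⟨.inr (.inl t), rfl⟩
  · exact ⟨.inr (.inr (.inl t)), rfl⟩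
  · exact ⟨.inr (.inr (.inr (.inl b))), rfl⟩
  · exact ⟨.inr (.inr (.inr (.inr b))), rfl⟩

theorem noInfiniteAntichain (m : ℕ) : NoInfiniteAntichain (X m) := by
  intro A hA
  let f : X m → Fin m ⊕ Fin m ⊕ Fin m ⊕ Bool ⊕ Bool := fun a =>
    match a with
    | grid s _ => .inl s
    | top t => .inr (.inl t)
    | bot t => .inr (.inr (.inl t))
    | ta b => .inr (.inr (.inr (.inl b)))
    | ba b => .inr (.inr (.inr (.inr b)))
  refine Set.Finite.of_finite_image (f := f) (Set.toFinite _) ?_
  intro x hx y hy hxy
  by_contra hne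
  rcases x with ⟨s, i⟩ | t | t | b | b <;> rcases y with ⟨u, j⟩ | u | u | c | c <;>
    simp only [f, Sum.inl.injEq, Sum.inr.injEq, reduceCtorEq] at hxy
  · subst hxy
    rcases le_total i j with h | h
    · exact hA hx hy hne ⟨le_rfl, h⟩
    · exact hA hy hx (Ne.symm hne) ⟨le_rfl, h⟩
  all_goals exact hne (by rw [hxy])

theorem top_maximal {t : Fin m} {x : X m} (h : top t ≤ x) : x = top t := by
  rcases x with ⟨s, i⟩ | u | u | b | b <;> simp [le_def, le] at h
  rw [h]

theorem ba_maximal {b : Bool} {x : X m} (h : ba b ≤ x) : x = ba b := by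
  rcases x with ⟨s, i⟩ | u | u | b | b <;> simp [le_def, le] at h
  rw [h]

theorem bot_minimal {t : Fin m} {x : X m} (h : x ≤ bot t) : x = bot t := by
  rcases x with ⟨s, i⟩ | u | u | b | b <;> simp [le_def, le] at h
  rw [h]

theorem ta_minimal {b : Bool} {x : X m} (h : x ≤ ta b) : x = ta b := by
  rcases x with ⟨s, i⟩ | u | u | b | b <;> simp [le_def, le] at h
  rw [h]

theorem isLUB_of_max {C : Set (X m)} (hC : IsChain (· ≤ ·) C) {x : X m} (hx : x ∈ C)
    (hmax : ∀ y, x ≤ y → y = x) : IsLUB C x := by
  refine ⟨fun y hy => ?_, fun u hu => hu hx⟩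
  rcases hC.total hx hy with h | h
  · rw [hmax y h]
  · exact h

theorem isGLB_of_min {C : Set (X m)} (hC : IsChain (· ≤ ·) C) {x : X m} (hx : x ∈ C)
    (hmin : ∀ y, y ≤ x → y = x) : IsGLB C x := by
  refine ⟨fun y hy => ?_, fun u hu => hu hx⟩
  rcases hC.total hx hy with h | h
  · exact h
  · rw [hmin y h]

theorem exists_lub {C : Set (X m)} (hne : C.Nonempty) (hC : IsChain (· ≤ ·) C) :
    ∃ s, IsLUB C s := by
  by_cases h1 : ∃ t, top t ∈ C
  · obtain ⟨t, ht⟩ := h1
    exact ⟨_, isLUB_of_max hC ht fun y hy => top_maximal hy⟩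
  by_cases h2 : ∃ b, ba b ∈ C
  · obtain ⟨t, ht⟩ := h2
    exact ⟨_, isLUB_of_max hC ht fun y hy => ba_maximal hy⟩
  by_cases h3 : ∃ s i, grid s i ∈ C
  · -- main case
    let S : Set (Fin m) := {s | ∃ i, grid s i ∈ C}
    let I : Set ℕ∞ := {i | ∃ s, grid s i ∈ C}
    have hSne : S.Nonempty := by obtain ⟨s, i, h⟩ := h3; exact ⟨s, i, h⟩
    obtain ⟨s, hsS, hsmax⟩ := Set.exists_max_image S id (Set.toFinite S) hSne
    obtain ⟨i0, hi0⟩ := hsS
    refine ⟨grid s (sSup I), ?_, ?_⟩
    · rintro (⟨u, k⟩ | u | u | b | b) hy
      · exact ⟨hsmax u ⟨k, hy⟩, le_sSup ⟨u, hy⟩⟩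
      · exact absurd ⟨u, hy⟩ h1
      · rcases hC.total hy hi0 with h | h
        · exact h
        · simp [le_def, le] at h
      · rcases hC.total hy hi0 with h | h
        · simp [le_def, le] at h
        · simp [le_def, le] at h
      · exact absurd ⟨b, hy⟩ h2
    · rintro (⟨u, k⟩ | u | u | b | b) hy
      · refine ⟨(hy hi0).1, sSup_le ?_⟩
        rintro j ⟨v, hv⟩
        exact (hy hv).2
      · have h5 : grid s i0 ≤ top u := hy hi0
        exact h5
      · have := hy hi0
        simp [le_def, le] at this
      · have := hy hi0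
        simp [le_def, le] at this
      · have := hy hi0
        simp [le_def, le] at this
  · -- only `bot` and `ta`
    have g1 : ∀ t, top t ∉ C := fun t ht => h1 ⟨t, ht⟩
    have g2 : ∀ b, ba b ∉ C := fun t ht => h2 ⟨t, ht⟩
    have g3 : ∀ s i, grid s i ∉ C := fun s i ht => h3 ⟨s, i, ht⟩
    obtain ⟨x, hx⟩ := hne
    refine ⟨x, fun y hy => ?_, fun u hu => hu hx⟩
    rcases hC.total hx hy with h | h
    · rcases x with ⟨s, i⟩ | t | t | b | b <;> rcases y with ⟨u, j⟩ | u | u | c | c <;>
        first
          | exact absurd hx (g1 _)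
          | exact absurd hx (g2 _)
          | exact absurd hx (g3 _ _)
          | exact absurd hy (g1 _)
          | exact absurd hy (g2 _)
          | exact absurd hy (g3 _ _)
          | (simp [le_def, le] at h; done)
          | (simp [le_def, le] at h; simp [h])
    · exact h

theorem exists_glb {C : Set (X m)} (hne : C.Nonempty) (hC : IsChain (· ≤ ·) C) :
    ∃ s, IsGLB C s := by
  by_cases h1 : ∃ t, bot t ∈ C
  · obtain ⟨t, ht⟩ := h1
    exact ⟨_, isGLB_of_min hC ht fun y hy => bot_minimal hy⟩
  by_cases h2 : ∃ b, ta b ∈ C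
  · obtain ⟨t, ht⟩ := h2
    exact ⟨_, isGLB_of_min hC ht fun y hy => ta_minimal hy⟩
  by_cases h3 : ∃ s i, grid s i ∈ C
  · -- main case
    let S : Set (Fin m) := {s | ∃ i, grid s i ∈ C}
    let I : Set ℕ∞ := {i | ∃ s, grid s i ∈ C}
    have hSne : S.Nonempty := by obtain ⟨s, i, h⟩ := h3; exact ⟨s, i, h⟩
    obtain ⟨s, hsS, hsmin⟩ := Set.exists_min_image S id (Set.toFinite S) hSne
    obtain ⟨i0, hi0⟩ := hsS
    refine ⟨grid s (sInf I), ?_, ?_⟩
    · rintro (⟨u, k⟩ | u | u | b | b) hy
      · exact ⟨hsmin u ⟨k, hy⟩, sInf_le ⟨u, hy⟩⟩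
      · rcases hC.total hy hi0 with h | h
        · simp [le_def, le] at h
        · exact h
      · exact absurd ⟨u, hy⟩ h1
      · exact absurd ⟨b, hy⟩ h2
      · rcases hC.total hy hi0 with h | h
        · simp [le_def, le] at h
        · simp [le_def, le] at h
    · rintro (⟨u, k⟩ | u | u | b | b) hy
      · refine ⟨(hy hi0).1, le_sInf ?_⟩
        rintro j ⟨v, hv⟩
        exact (hy hv).2
      · have := hy hi0
        simp [le_def, le] at this
      · have h5 : bot u ≤ grid s i0 := hy hi0
        exact h5
      · have := hy hi0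
        simp [le_def, le] at this
      · have := hy hi0
        simp [le_def, le] at this
  · -- only `top` and `ba`
    have g1 : ∀ t, bot t ∉ C := fun t ht => h1 ⟨t, ht⟩
    have g2 : ∀ b, ta b ∉ C := fun t ht => h2 ⟨t, ht⟩
    have g3 : ∀ s i, grid s i ∉ C := fun s i ht => h3 ⟨s, i, ht⟩
    obtain ⟨x, hx⟩ := hne
    refine ⟨x, fun y hy => ?_, fun u hu => hu hx⟩
    rcases hC.total hx hy with h | h
    · exact h
    · rcases x with ⟨s, i⟩ | t | t | b | b <;> rcases y with ⟨u, j⟩ | u | u | c | c <;>
        first
          | exact absurd hx (g1 _)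
          | exact absurd hx (g2 _)
          | exact absurd hx (g3 _ _)
          | exact absurd hy (g1 _)
          | exact absurd hy (g2 _)
          | exact absurd hy (g3 _ _)
          | (simp [le_def, le] at h; done)
          | (simp [le_def, le] at h; simp [h])

theorem chainComplete (m : ℕ) : ChainComplete (X m) :=
  fun _ hne hC => ⟨exists_lub hne hC, exists_glb hne hC⟩

end X

end Pool.Agent.W_MP_be1d92_co
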