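import Mathlib

/-!
# Retractions onto good subsets: definitions
-/

namespace Pool.Agent.W_MP_be1d92_co

/-- Every nonempty chain has a supremum and an infimum. -/
def ChainComplete (P : Type) [PartialOrder P] : Prop :=
  ∀ C : Set P, C.Nonempty → IsChain (· ≤ ·) C → (∃ s, IsLUB C s) ∧ (∃ i, IsGLB C i)

/-- There is no infinite antichain. -/
def NoInfiniteAntichain (P : Type) [PartialOrder P] : Prop :=
  ∀ A : Set P, IsAntichain (· ≤ ·) A → A.Finite

/-- `p` is funneled through `q`: every maximal chain containing `p` also contains `q`. -/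
def Funneled {P : Type} [PartialOrder P] (p q : P) : Prop :=
  ∀ C : Set P, IsMaxChain (· ≤ ·) C → p ∈ C → q ∈ C

/-- Good subsets: every `p` is funneled through exactly one element of `Q`. -/
def IsGood (P : Type) [PartialOrder P] (Q : Set P) : Prop :=
  ∀ p : P, ∃! q : P, q ∈ Q ∧ Funneled p q

/-- The variant of Li and Milner: `Q` consists of elements that are maximal for the
quasi-order `Funneled`, is an antichain for it, and dominates every element. -/
def IsGoodLM (P : Type) [PartialOrder P] (Q : Set P) : Prop :=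
  (∀ q ∈ Q, ∀ p : P, Funneled q p → Funneled p q) ∧
  (∀ q ∈ Q, ∀ q' ∈ Q, Funneled q q' → q = q') ∧
  (∀ p : P, ∃ q ∈ Q, Funneled p q)

/-- There are `P = Q 0 ⊇ Q 1 ⊇ ⋯ ⊇ Q k` such that each `Q (i+1)` is a good subset of the
ordered set `Q i` and `Q k` is finite. -/
def ReachesFinite (good : ∀ (A : Type) [PartialOrder A], Set A → Prop)
    (P : Type) [PartialOrder P] (k : ℕ) : Prop :=
  ∃ Q : ℕ → Set P, Q 0 = Set.univ ∧
    (∀ i < k, Q (i + 1) ⊆ Q i ∧ good (Q i) {x : Q i | (x : P) ∈ Q (i + 1)}) ∧
    (Q k).Finite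

/-- The least number of successive retractions onto good subsets leading to a finite set
(`⊤` if there is no such number). -/
noncomputable def gamma (good : ∀ (A : Type) [PartialOrder A], Set A → Prop)
    (P : Type) [PartialOrder P] : ℕ∞ :=
  ⨅ k : ℕ, ⨅ _ : ReachesFinite good P k, (k : ℕ∞)

end Pool.Agent.W_MP_be1d92_co
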